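import Mathlib
import Pool.Agent.Y278.MK.Geo

/-! Project MK (helper278): `S_ENDG` from `S_ENDW` and `S_ZW`, a projective change of the
parameter. -/

set_option autoImplicit false

namespace Pool.Agent.Y523.MK

open MeasureTheory Set Real Filter Topology
open scoped ContDiff
open Pool.Agent.Y278.MK

theorem endg_thm (h1 : S_ENDW) (h2 : S_ZW) : S_ENDG := by
  intro h k hh hk H q t1 hq hA hev
  by_cases hw : k 0 + k π = 0
  swap
  · refine h1 h k hh hk hw ?_ q t1 hq hA hev
    rintro ⟨a, b, c, habc⟩
    have := (H 1 (-a) b c (fun θ => by rw [habc θ]; ring)).1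
    exact one_ne_zero this
  -- the point at which the curve is studied
  set g : ℝ → ℝ := fun θ => h θ + t1 * k θ with hg
  have gC : C2P g := hh.line hk t1
  by_cases hw2 : g 0 + g π = 0
  · refine absurd (h2 g gC hw2 ?_).1 (not_lt.2 hA.le)
    rintro ⟨a, b, hab⟩
    have := (H 1 t1 a b (fun θ => by
      have := hab θ
      simp only [hg] at this
      linarith)).1
    exact one_ne_zero this
  set k1 : ℝ → ℝ := fun θ => (-1) * g θ + 1 * k θ with hk1
  have kC : C2P k1 := gC.add hk (-1) 1
  have hw3 : k1 0 + k1 π ≠ 0 := by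
    intro h3
    apply hw2
    simp only [hk1] at h3
    linarith
  refine h1 g k1 gC kC hw3 ?_ q 0 hq ?_ ?_
  · rintro ⟨a, b, c, habc⟩
    obtain ⟨e1, e2⟩ := H (1 + a) (t1 - a + a * t1) b c (fun θ => by
      have := habc θ
      simp only [hk1, hg] at this
      linarith)
    have e3 : a = -1 := by linarith
    rw [e3] at e2
    linarith
  · simpa using hA
  -- the change of the parameter
  have hcont : Tendsto (fun s : ℝ => t1 + s / (1 - s)) (𝓝 0) (𝓝 t1) := by
    have h3 : ContinuousAt (fun s : ℝ => t1 + s / (1 - s)) 0 := by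
      refine continuousAt_const.add (continuousAt_id.div
        (continuousAt_const.sub continuousAt_id) ?_)
      norm_num
    have h4 : t1 + 0 / (1 - 0) = t1 := by norm_num
    rw [ContinuousAt, h4] at h3
    exact h3
  have hev2 := hcont.eventually hev
  have hlt : ∀ᶠ s : ℝ in 𝓝 0, s < 1 := Iio_mem_nhds one_pos
  filter_upwards [hev2, hlt] with s hs hs1
  have hs0 : 0 < 1 - s := by linarith
  set u : ℝ → ℝ := fun θ => h θ + (t1 + s / (1 - s)) * k θ with hu
  have uC : C2P u := hh.line hk _
  have e0 : (fun θ => g θ + s * k1 θ) = fun θ => (1 - s) * u θ := by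
    funext θ
    simp only [hg, hk1, hu]
    field_simp
    ring
  rw [ff_eq gC kC, e0, area_smul uC, FF_smul uC]
  have e1 : (1 - s) * √(q / ((1 - s) ^ 2 * area u)) = √(q / area u) := by
    have e2 : (1 - s) * √(q / ((1 - s) ^ 2 * area u)) =
        √((1 - s) ^ 2) * √(q / ((1 - s) ^ 2 * area u)) := by
      rw [Real.sqrt_sq hs0.le]
    rw [e2, ← Real.sqrt_mul (by positivity)]
    congr 1
    rw [mul_div_assoc', mul_div_mul_left _ _ (by positivity)]
  rw [e1]
  rw [ff_eq hh hk] at hs
  rw [hs, mul_zero]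

end Pool.Agent.Y523.MK
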