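import Mathlib
import Pool.Agent.Y278.MK.Geo
import Pool.Agent.Y458.MK.Qc

/-! Project MK (helper278): `S_QCL` from `S_CMP`, `S_SCALE`, `S_AREA` (adaptation of `qc_thm`
of helper458). -/

set_option autoImplicit false

namespace Pool.Agent.Y523.MK

open MeasureTheory Set Real Filter Topology
open scoped ContDiff Pointwise
open Pool.Agent.Y278.MK

theorem qcl_thm (h1 : S_CMP) (h2 : S_SCALE) (h3 : S_AREA) : S_QCL := by
  intro h k lam hh hk hh0 hrh hlam hSt
  have ch : Continuous h := hh.1.continuous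
  have ck : Continuous k := hk.1.continuous
  obtain ⟨Mh, hMh, hMh2⟩ := Pool.Agent.Y458.MK.per_max ch hh.2
  obtain ⟨m, hm, hm2⟩ := Pool.Agent.Y458.MK.per_min ch hh.2 hh0
  obtain ⟨Mk, hMk, hMk2⟩ := Pool.Agent.Y278.MK.per_bdd ck hk.2
  obtain ⟨mr, hmr, hmr2⟩ := Pool.Agent.Y458.MK.per_min hh.rho_cont hh.rho_per hrh
  obtain ⟨Mr, hMr, hMr2⟩ := Pool.Agent.Y278.MK.per_bdd hk.rho_cont hk.rho_per
  set L0 : ℝ := lam / 2 with hL0d
  set L1 : ℝ := 3 / 2 * lam with hL1d
  have hL0 : 0 < L0 := by positivity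
  have hL1 : 0 < L1 := by positivity
  have hL : L0 ≤ L1 := by rw [hL0d, hL1d]; linarith
  set a : ℝ := m / 2 with ha
  set b : ℝ := Mh + m / 2 with hb
  have ha0 : 0 < a := by positivity
  have hb0 : 0 < b := by positivity
  set Q : ℝ := √(L1 / L0) with hQ
  have hQ1 : 1 ≤ Q := by
    rw [hQ, Real.one_le_sqrt, one_le_div₀ hL0]
    exact hL
  have hQ0 : 0 < Q := by linarith
  obtain ⟨C, hC, hCMP⟩ := h1 (a / Q) (b * Q) L0 L1 (by positivity) (by positivity) hL0
  set C1 : ℝ := Mk / a + 1 / L0 + (Mk / a) * (1 / L0) with hC1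
  have hC10 : 0 < C1 := by positivity
  set e0 : ℝ := 1 / (1 + C1) with he0
  have he00 : 0 < e0 := by positivity
  have he01 : e0 ≤ 1 := by
    rw [he0, div_le_one (by positivity)]; linarith
  have he02 : C1 * e0 ≤ 1 := by
    rw [he0, mul_one_div, div_le_one (by positivity)]; linarith
  set ε : ℝ := min (min (m / (2 * Mk)) (mr / (2 * Mr))) (min (lam / 2) (e0 / 2)) with hε
  have hε0 : 0 < ε := by
    rw [hε]
    refine lt_min (lt_min ?_ ?_) (lt_min ?_ ?_) <;> positivity
  have hε1 : ε ≤ m / (2 * Mk) := (min_le_left _ _).trans (min_le_left _ _)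
  have hε2 : ε ≤ mr / (2 * Mr) := (min_le_left _ _).trans (min_le_right _ _)
  have hε3 : ε ≤ lam / 2 := (min_le_right _ _).trans (min_le_left _ _)
  have hε4 : ε ≤ e0 / 2 := (min_le_right _ _).trans (min_le_right _ _)
  have hsk : ∀ s, |s| ≤ ε → ∀ θ, |s * k θ| ≤ m / 2 := by
    intro s hs θ
    rw [abs_mul]
    calc |s| * |k θ| ≤ (m / (2 * Mk)) * Mk :=
          mul_le_mul (hs.trans hε1) (hMk2 θ) (abs_nonneg _) (by positivity)
      _ = m / 2 := by field_simp
  have hsr : ∀ s, |s| ≤ ε → ∀ θ, |s * rho k θ| ≤ mr / 2 := by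
    intro s hs θ
    rw [abs_mul]
    calc |s| * |rho k θ| ≤ (mr / (2 * Mr)) * Mr :=
          mul_le_mul (hs.trans hε2) (hMr2 θ) (abs_nonneg _) (by positivity)
      _ = mr / 2 := by field_simp
  have bd1 : ∀ s, |s| ≤ ε → ∀ θ, a ≤ h θ + s * k θ := by
    intro s hs θ
    have i1 := (abs_le.1 (hsk s hs θ)).1
    have i2 := hm2 θ
    rw [ha]
    linarith
  have bd2 : ∀ s, |s| ≤ ε → ∀ θ, h θ + s * k θ ≤ b := by
    intro s hs θ
    have i1 := (abs_le.1 (hsk s hs θ)).2
    have i2 := hMh2 θ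
    rw [hb]
    linarith
  have bd1' : ∀ θ, a ≤ h θ := by
    intro θ
    have i2 := hm2 θ
    rw [ha]
    linarith
  have bd2' : ∀ θ, h θ ≤ b := by
    intro θ
    have i2 := hMh2 θ
    rw [hb]
    linarith
  have vol : ∀ s, |s| ≤ ε → (volume (Om fun θ => h θ + s * k θ)).toReal =
      area (fun θ => h θ + s * k θ) := by
    intro s hs
    apply Pool.Agent.Y458.MK.om_vol h3 (Pool.Agent.Y458.MK.c2p_comb hh hk s)
    · intro θ
      exact lt_of_lt_of_le ha0 (bd1 s hs θ)
    · intro θ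
      rw [Pool.Agent.Y458.MK.rho_comb hh hk]
      have i1 := (abs_le.1 (hsr s hs θ)).1
      have i2 := hmr2 θ
      linarith
  have vol' : (volume (Om h)).toReal = area h := Pool.Agent.Y458.MK.om_vol h3 hh hh0 hrh
  refine ⟨L1 * (C * (C1 * √C1)), ε, by positivity, hε0, ?_⟩
  intro s mu hs hmul hSs
  have hml := abs_le.1 hmul
  have hm0 : L0 ≤ mu := by rw [hL0d]; linarith [hml.1]
  have hm1 : mu ≤ L1 := by rw [hL1d]; linarith [hml.2]
  have hl0 : L0 ≤ lam := by rw [hL0d]; linarith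
  have hl1 : lam ≤ L1 := by rw [hL1d]; linarith
  have hmu : 0 < mu := lt_of_lt_of_le hL0 hm0
  set e : ℝ := |s| + |mu - lam| with he
  have he_nn : 0 ≤ e := by positivity
  have hcase : e ≤ e0 := by rw [he]; linarith
  have cg : Continuous (fun θ => h θ + s * k θ) := by fun_prop
  have pg : ∀ x, (fun θ => h θ + s * k θ) (x + 2 * π) = (fun θ => h θ + s * k θ) x :=
    (Pool.Agent.Y458.MK.c2p_comb hh hk s).2
  have hee : 0 ≤ e * √e := by positivity
  set r : ℝ := √(lam / mu) with hr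
  have hr0 : 0 < r := Real.sqrt_pos.2 (by positivity)
  have hr2 : r ^ 2 = lam / mu := Real.sq_sqrt (by positivity)
  have hrinv : r⁻¹ = √(mu / lam) := by
    rw [hr, ← Real.sqrt_inv, inv_div]
  have hrQ : r ≤ Q := by
    apply Real.sqrt_le_sqrt
    exact div_le_div₀ hL1.le hl1 hL0 hm0
  have hrQ' : r⁻¹ ≤ Q := by
    rw [hrinv]
    apply Real.sqrt_le_sqrt
    exact div_le_div₀ hL1.le hm1 hL0 hl0
  set d : ℝ := C1 * e with hd
  have hd0 : 0 ≤ d := by positivity
  have hd1 : d ≤ 1 := (mul_le_mul_of_nonneg_left hcase hC10.le).trans he02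
  set α : ℝ := |s| * (Mk / a) with hα
  set β : ℝ := |mu - lam| / L0 with hβ
  have hα0 : 0 ≤ α := by positivity
  have hβ0 : 0 ≤ β := by positivity
  have hαe : α ≤ (Mk / a) * e := by
    rw [hα, mul_comm]
    exact mul_le_mul_of_nonneg_left (by linarith [abs_nonneg (mu - lam)]) (by positivity)
  have hβe : β ≤ (1 / L0) * e := by
    rw [hβ, div_eq_inv_mul, one_div]
    exact mul_le_mul_of_nonneg_left (by linarith [abs_nonneg s]) (by positivity)
  have hprod : (1 + α) * (1 + β) ≤ 1 + d := by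
    have h4 : α * β ≤ ((Mk / a) * e) * ((1 / L0) * e) := mul_le_mul hαe hβe hβ0 (by positivity)
    have h5 : ((Mk / a) * e) * ((1 / L0) * e) ≤ ((Mk / a) * (1 / L0)) * e := by
      have : ((Mk / a) * e) * ((1 / L0) * e) = ((Mk / a) * (1 / L0)) * (e * e) := by
        ring
      rw [this]
      apply mul_le_mul_of_nonneg_left _ (by positivity)
      nlinarith
    have h6 : d = (Mk / a) * e + (1 / L0) * e + ((Mk / a) * (1 / L0)) * e := by
      rw [hd, hC1]; ring
    rw [h6]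
    nlinarith
  have hr1 : r ≤ 1 + β := by
    have := Pool.Agent.Y458.MK.sqrt_ratio hL0 hl0 hm0
    rwa [abs_sub_comm lam mu] at this
  have hr1' : r⁻¹ ≤ 1 + β := by
    rw [hrinv]
    exact Pool.Agent.Y458.MK.sqrt_ratio hL0 hm0 hl0
  have gpos : ∀ θ, 0 < h θ + s * k θ := fun θ => lt_of_lt_of_le ha0 (bd1 s hs θ)
  -- comparison of the functions
  have hskα : ∀ θ, |s * k θ| ≤ α * a := by
    intro θ
    rw [abs_mul, hα]
    calc |s| * |k θ| ≤ |s| * Mk := mul_le_mul_of_nonneg_left (hMk2 θ) (abs_nonneg _)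
      _ = |s| * (Mk / a) * a := by field_simp
  have cmp1 : ∀ θ, h θ + s * k θ ≤ (1 + α) * h θ := by
    intro θ
    have i1 := (abs_le.1 (hskα θ)).2
    have i2 := mul_le_mul_of_nonneg_left (bd1' θ) hα0
    linarith
  have cmp2 : ∀ θ, h θ ≤ (1 + α) * (h θ + s * k θ) := by
    intro θ
    have i1 := (abs_le.1 (hskα θ)).1
    have i2 := mul_le_mul_of_nonneg_left (bd1 s hs θ) hα0
    linarith
  have in1 : ∀ θ, (fun θ => h θ + s * k θ) θ ≤ (1 + d) * (fun θ => r * h θ) θ := by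
    intro θ
    show h θ + s * k θ ≤ (1 + d) * (r * h θ)
    have j1 := cmp1 θ
    have g0 := hh0 θ
    have j2 : h θ ≤ (1 + β) * (r * h θ) := by
      have : h θ = r⁻¹ * (r * h θ) := by
        rw [← mul_assoc, inv_mul_cancel₀ hr0.ne', one_mul]
      calc h θ = r⁻¹ * (r * h θ) := this
        _ ≤ _ := mul_le_mul_of_nonneg_right hr1' (by positivity)
    calc h θ + s * k θ ≤ (1 + α) * h θ := j1
      _ ≤ (1 + α) * ((1 + β) * (r * h θ)) :=
          mul_le_mul_of_nonneg_left j2 (by positivity)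
      _ = ((1 + α) * (1 + β)) * (r * h θ) := by ring
      _ ≤ (1 + d) * (r * h θ) := mul_le_mul_of_nonneg_right hprod (by positivity)
  have in2 : ∀ θ, (fun θ => r * h θ) θ ≤ (1 + d) * (fun θ => h θ + s * k θ) θ := by
    intro θ
    show r * h θ ≤ (1 + d) * (h θ + s * k θ)
    have j1 := cmp2 θ
    have g0 := hh0 θ
    have g1 := gpos θ
    calc r * h θ ≤ (1 + β) * ((1 + α) * (h θ + s * k θ)) :=
          mul_le_mul hr1 j1 g0.le (by positivity)
      _ = ((1 + α) * (1 + β)) * (h θ + s * k θ) := by ring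
      _ ≤ (1 + d) * (h θ + s * k θ) := mul_le_mul_of_nonneg_right hprod g1.le
  -- the two domains
  have G1 : Good (a / Q) (b * Q) (Om fun θ => h θ + s * k θ) := by
    apply Pool.Agent.Y458.MK.om_good cg pg
    · intro θ
      exact (div_le_self ha0.le hQ1).trans (bd1 s hs θ)
    · intro θ
      exact (bd2 s hs θ).trans (le_mul_of_one_le_right hb0.le hQ1)
  have G2 : Good (a / Q) (b * Q) (Om fun θ => r * h θ) := by
    apply Pool.Agent.Y458.MK.om_good (continuous_const.mul ch)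
    · intro x
      show r * h (x + 2 * π) = r * h x
      rw [hh.2]
    · intro θ
      have : Q⁻¹ ≤ r := by
        rw [inv_le_comm₀ hQ0 hr0]
        exact hrQ'
      rw [div_eq_inv_mul]
      exact mul_le_mul this (bd1' θ) ha0.le hr0.le
    · intro θ
      rw [mul_comm b Q]
      exact mul_le_mul hrQ (bd2' θ) (hh0 θ).le hQ0.le
  have S2 : Solvable (Om fun θ => r * h θ) mu := by
    have := h2 (Om h) lam r (Pool.Agent.Y458.MK.om_open ch hh.2).measurableSet hr0 hSt
    rw [Pool.Agent.Y458.MK.scaled_set hr0, hr2] at this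
    have e1 : lam / (lam / mu) = mu := by field_simp
    rwa [e1] at this
  have key := hCMP _ _ mu d G1 G2 hm0 hm1 hSs S2 hd0 hd1
    (Pool.Agent.Y458.MK.om_incl hd0 in1) (Pool.Agent.Y458.MK.om_incl hd0 in2)
  rw [vol s hs, ← Pool.Agent.Y458.MK.scaled_set hr0, Pool.Agent.Y458.MK.scaled_vol hr0, vol',
    hr2] at key
  have e2 : mu * area (fun θ => h θ + s * k θ) - lam * area h =
      mu * (area (fun θ => h θ + s * k θ) - lam / mu * area h) := by
    field_simp
  rw [e2, abs_mul, abs_of_pos hmu]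
  have e3 : d * √d = (C1 * √C1) * (e * √e) := by
    rw [hd, Real.sqrt_mul hC10.le]; ring
  rw [e3] at key
  calc mu * |area (fun θ => h θ + s * k θ) - lam / mu * area h| ≤
      L1 * (C * ((C1 * √C1) * (e * √e))) := mul_le_mul hm1 key (abs_nonneg _) hL1.le
    _ = (L1 * (C * (C1 * √C1))) * (e * √e) := by ring

end Pool.Agent.Y523.MK
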